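import Pool.Agent.H95.M.Q68_OV_Graphs

/-!
# Classes of one smooth projective scheme and finitely many cubic hypersurfaces

Let `S` be a smooth projective scheme over a perfect field `F`, `H` a functor of Chow motives, `A ⊆ H` a
subfunctor and `J` a set of elements of `H(S)`. The elements of `J` are in `A(S)` if and only if all
correspondences from `S` to all smooth projective schemes `Y` map them into `A(Y)`.
-/

set_option autoImplicit false

open CategoryTheory CategoryTheory.Limits AlgebraicGeometry Pool.Agent.Y116.UV Pool.Agent.Z125.UN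
  Pool.Agent.Q193.LT Pool.Agent.Q49.WU

universe w w' u

namespace Pool.Agent.Q68.OV

/-- A functor of correspondences, a subfunctor, and a set of classes on `S` of the index `m0`. -/
structure Reach (F : Type) [Field F] (E : Type w') [CommRing E] (S : Sch F) (m0 : ℤ) where
  /-- the classes on `Y` of the index `m` -/
  H : ℤ → Sch F → ModuleCat.{w} E
  /-- the classes in the subfunctor -/
  A : ∀ (m : ℤ) (Y : Sch F), Submodule E (H m Y)
  /-- the correspondences from `S` to `Y` which map the index `m0` to the index `m` -/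
  Corr : ℤ → Sch F → Type u
  /-- the operation of the correspondences -/
  act : ∀ {m : ℤ} {Y : Sch F}, Corr m Y → H m0 S →ₗ[E] H m Y
  /-- the diagonal -/
  one : Corr m0 S
  /-- the classes in question -/
  J : Set (H m0 S)

section

variable {F : Type} [Field F] {E : Type w'} [CommRing E] {S : Sch F} {m0 : ℤ}

/-- Correspondences preserve the subfunctor, and the diagonal operates as the identity. -/
structure IsReach (D : Reach.{w, w', u} F E S m0) : Prop where
  act_mem : ∀ (m : ℤ) (Y : Sch F), SmoothProj Y → ∀ (c : D.Corr m Y) (x : D.H m0 S),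
    x ∈ D.A m0 S → D.act c x ∈ D.A m Y
  act_one : ∀ x, D.act D.one x = x

/-- The classes of `J` are in the subfunctor. -/
def Holds (D : Reach.{w, w', u} F E S m0) : Prop := ∀ x ∈ D.J, x ∈ D.A m0 S

/-- All images in `Y` of the classes of `J` are in the subfunctor. -/
def Closed (D : Reach.{w, w', u} F E S m0) (m : ℤ) (Y : Sch F) : Prop :=
  ∀ c : D.Corr m Y, ∀ x ∈ D.J, D.act c x ∈ D.A m Y

end

/-- **The classes of one smooth projective scheme and finitely many cubic hypersurfaces.** -/
theorem reach_finite {F : Type} [Field F] [PerfectField F] {S : Sch F} (hS : SmoothProj S) {n : ℕ}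
    (hn : topologicalKrullDim S.left ≤ n) (n1 : ℕ) (m0 : ℤ) :
    ∃ (L L' : List (Form F)) (G : List Graph),
      (∀ t ∈ L, t.Block (n + 2) ∧ ¬ t.Block (n1 + 2)) ∧
      ∀ (E : Type w') [CommRing E] (D : Reach.{w, w', u} F E S m0)
        (C : PairData.{w} F (ℤ × ℤ) E), IsReach D →
        IsWeightPair C → WeightGen C →
        (∀ Y, SmoothProj Y → ∀ m, (BijAt C Prod.fst m Y ↔ Closed D m Y)) →
        (∀ Y : Sch F, SmoothProj Y → topologicalKrullDim Y.left ≤ n1 → BijAll C Y) →
        (Holds D ↔ ∀ t ∈ L, BijAll C t.hyp) ∧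
        (Holds D ↔ ∀ t ∈ L', BijAt C Prod.fst (m0 - 1 + t.a) t.hyp) ∧
        (Frac F → (Holds D ↔ ∀ g ∈ G, BijAll C (g.hyp F))) ∧
        (Holds D → ∀ t : Form F, BijAll C t.hyp) ∧
        (∀ t : Form F, t.Block (n1 + 2) → BijAll C t.hyp) := by
  classical
  obtain ⟨L, hL, hLS⟩ := reached S hS.ft hn
  obtain ⟨L', hLS'⟩ := reachedAt m0 S hS.ft
  have hGr : ∃ G : List Graph, Frac F →
      ∀ Q : Sch F → Prop, Bnd True Q → (∀ g ∈ G, Q (g.hyp F)) → Q S := by
    by_cases hF : Frac F
    · obtain ⟨G, hG⟩ := reachedG hF S hS.ft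
      exact ⟨G, fun _ => hG⟩
    · exact ⟨[], fun h => absurd h hF⟩
  obtain ⟨G, hGS⟩ := hGr
  refine ⟨L.filter (fun t => ¬ t.Block (n1 + 2)), L', G, fun t ht => ?_, ?_⟩
  · rw [List.mem_filter] at ht
    exact ⟨hL t ht.1, by simpa using ht.2⟩
  intro E _ D C hD hC hg bij low
  have point : BijAll C (aff F F) := by
    refine hg n1 low (aff F F) (ft_aff True) ?_
    rw [topDim_aff, ringKrullDim_eq_zero_of_field]
    exact_mod_cast Nat.zero_le n1
  have hlow : ∀ t : Form F, t.Block (n1 + 2) → BijAll C t.hyp := fun t ht =>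
    (wg_dim hg hC point n1).mp low t.a t.b t.c t.T ht
  have hidx : ∀ a : ℕ, m0 + ((a : ℤ) - 1) = m0 - 1 + a := fun a => by ring
  have hall' : ∀ X : Sch F, BijAll C X ↔ ∀ m, BijAt C Prod.fst m X :=
    fun X => ⟨fun h _ j _ => h j, fun h j => h j.1 j rfl⟩
  have hst' : Holds D → ∀ Y, SmoothProj Y → BijAll C Y := fun h Y hY =>
    (hall' Y).mpr fun m => (bij Y hY m).mpr fun c x hx => hD.act_mem m Y hY c x (h x hx)
  have hback : BijAt C Prod.fst m0 S → Holds D := by
    intro h x hx
    have h1 := (bij S hS m0).mp h D.one x hx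
    rwa [hD.act_one] at h1
  have hall : Holds D → ∀ t : Form F, BijAll C t.hyp := fun h t =>
    (wg_all hg hC point).mp (hst' h) t.a t.b t.c t.T
  refine ⟨⟨fun h t _ => hall h t, fun h => ?_⟩, ⟨fun h t _ j _ => hall h t j, fun h => ?_⟩,
    fun hF => ⟨fun h g _ => (wg_graph hg hC point hF).mp (hst' h) g.a g.b g.c g.H, fun h =>
      hback ((hall' S).mp (hGS hF _ (bnd_pair hC point) h) m0)⟩, hall, hlow⟩
  · refine hback ((hall' S).mp (hLS _ (bnd_pair hC point) fun t ht => ?_) m0)
    by_cases h4 : t.Block (n1 + 2)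
    · exact hlow t h4
    · exact h t (List.mem_filter.mpr ⟨ht, by simpa using h4⟩)
  · refine hback (hLS' _ (wuni_pair hC graded_weight point) fun t ht => ?_)
    rw [hidx]
    exact h t ht

end Pool.Agent.Q68.OV
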