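import Pool.Agent.H95.M.Q193_LT_Hir

/-!
# Cycle class maps for weight complexes

For a separated scheme `X` of finite type over a field, the weight complex `W(X)` (Gillet, Soulé; a
complex of Chow motives, unique up to homotopy, and equal to `h(X)` for smooth projective `X`) gives
groups of cycles with two indices: `A^{n,i}(X) = H^i(A^n(W(X)))`, where `A^n` is the group of algebraic
cycles of codimension `n` for some adequate equivalence relation. A natural transformation from `A^n` to
another additive functor `B^n` of Chow motives induces maps `A^{n,i}(X) → B^{n,i}(X)`.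
-/

set_option autoImplicit false

open CategoryTheory CategoryTheory.Limits AlgebraicGeometry Pool.Agent.Y116.UV Pool.Agent.Z125.UN

universe w w'

namespace Pool.Agent.Q193.LT

/-- The shift `(n, i) ↦ (n, i + 1)`. -/
def shiftI : ℤ × ℤ ≃ ℤ × ℤ := Equiv.prodCongr (Equiv.refl ℤ) (Equiv.addRight 1)

/-- The shift `(n, i) ↦ (n + 1, i)`. -/
def shiftN : ℤ × ℤ ≃ ℤ × ℤ := Equiv.prodCongr (Equiv.addRight 1) (Equiv.refl ℤ)

/-- The standard properties of `A^{n,i}`, `B^{n,i}` and of the map between them, for weight complexes with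
compact supports: long exact sequences `⋯ → A^{n,i}(U) → A^{n,i}(X) → A^{n,i}(Z) → A^{n,i+1}(U) → ⋯`,
`A^{n,i}(E) = A^{n-r,i}(U)` for affine bundles with fibre `𝔸^r`, and
`A^{n,i}(X × 𝔾_m) = A^{n-1,i}(X) ⊕ A^{n,i-1}(X)`. -/
def IsWeightPair {R : Type} [CommRing R] {E : Type w'} [CommRing E]
    (C : PairData.{w} R (ℤ × ℤ) E) : Prop :=
  IsPair C shiftI shiftN shiftI

section

variable {k : Type} [Field k] [PerfectField k] {E : Type w'} [CommRing E]
  {C : PairData.{w} k (ℤ × ℤ) E} (hk : Hironaka k) (hC : IsWeightPair C)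
  (h1 : BijAll C (aff k k))

include hC h1

/-- All separated schemes of finite type and dimension at most `n`. -/
theorem cyc_ft_dim (n : ℕ) :
    (∀ X : Sch k, FT True X → topologicalKrullDim X.left ≤ n → BijAll C X) ↔
      ∀ (a b c : ℕ) (T : Fin a → Fin b → Fin c → k), (a ≤ n + 2 ∨ b ≤ n + 2 ∨ c ≤ n + 2) →
        BijAll C (hypS T) :=
  dim_iff (bnd_pair hC h1) n

include hk

theorem cyc_dim (n : ℕ) :
    (∀ Y : Sch k, SmoothProj Y → topologicalKrullDim Y.left ≤ n → BijAll C Y) ↔
      ∀ (a b c : ℕ) (T : Fin a → Fin b → Fin c → k), (a ≤ n + 2 ∨ b ≤ n + 2 ∨ c ≤ n + 2) →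
        BijAll C (hypS T) :=
  sp_iff hk (bnd_pair hC h1) n

theorem cyc_all : (∀ Y : Sch k, SmoothProj Y → BijAll C Y) ↔
      ∀ (a b c : ℕ) (T : Fin a → Fin b → Fin c → k), BijAll C (hypS T) :=
  sp_all_iff hk (bnd_pair hC h1)

theorem cyc_graph (hF : Frac k) : (∀ Y : Sch k, SmoothProj Y → BijAll C Y) ↔
      ∀ (a b c : ℕ) (H : Finset (Fin a × Fin b × Fin c)), BijAll C (tripS k H) :=
  sp_graph_iff hk (bnd_pair hC h1) hF

end

/-- Smooth projective schemes generate, in each dimension: the terms of the weight complex of a scheme of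
dimension at most `n` are direct factors of Tate twists of motives of smooth projective schemes of
dimension at most `n` (Gillet, Soulé, and with rational coefficients Bondarko for all perfect fields,
with the alterations of de Jong and Gabber), so that the maps `A^{n,i}(X) → B^{n,i}(X)` are bijective
for all schemes `X` of dimension at most `n` if this is true for smooth projective ones. -/
def WeightGen {k : Type} [Field k] {ι : Type} {E : Type w'} [CommRing E]
    (C : PairData.{w} k ι E) : Prop :=
  ∀ n : ℕ, (∀ Y : Sch k, SmoothProj Y → topologicalKrullDim Y.left ≤ n → BijAll C Y) →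
    ∀ X : Sch k, FT True X → topologicalKrullDim X.left ≤ n → BijAll C X

section

variable {k : Type} [Field k] [PerfectField k] {ι : Type} {E : Type w'} [CommRing E]
  {C : PairData.{w} k ι E} {δ τ σ : ι ≃ ι} (hg : WeightGen C) (hC : IsPair C δ τ σ)
  (h1 : BijAll C (aff k k))

include hg hC h1

theorem wg_dim (n : ℕ) :
    (∀ Y : Sch k, SmoothProj Y → topologicalKrullDim Y.left ≤ n → BijAll C Y) ↔
      ∀ (a b c : ℕ) (T : Fin a → Fin b → Fin c → k), (a ≤ n + 2 ∨ b ≤ n + 2 ∨ c ≤ n + 2) →
        BijAll C (hypS T) := by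
  rw [← dim_iff (bnd_pair hC h1) n]
  exact ⟨fun h => hg n h, fun h Y hY hn => h Y hY.ft hn⟩

theorem wg_all : (∀ Y : Sch k, SmoothProj Y → BijAll C Y) ↔
      ∀ (a b c : ℕ) (T : Fin a → Fin b → Fin c → k), BijAll C (hypS T) := by
  constructor
  · intro h a b c T
    exact (wg_dim hg hC h1 a).mp (fun Y hY _ => h Y hY) a b c T (Or.inl (by omega))
  · intro h Y hY
    exact (all_iff (bnd_pair hC h1)).mpr h Y hY.ft

theorem wg_graph (hF : Frac k) : (∀ Y : Sch k, SmoothProj Y → BijAll C Y) ↔
      ∀ (a b c : ℕ) (H : Finset (Fin a × Fin b × Fin c)), BijAll C (tripS k H) := by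
  constructor
  · intro h a b c H
    exact (all_iff (bnd_pair hC h1)).mpr ((wg_all hg hC h1).mp h) _ (ft_aff True)
  · intro h Y hY
    exact universal_frac hF (bnd_pair hC h1).toUni h Y hY.ft

end

end Pool.Agent.Q193.LT
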