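import Pool.Agent.H95.M.Q282_UK_Bil
import Pool.Agent.H89.L.Q193_LT_Key

/-!
# Systems of bilinear equations and trilinear forms
-/

set_option autoImplicit false

open CategoryTheory AlgebraicGeometry MvPolynomial

namespace Pool.Agent.N882.UE

open Pool.Agent.Y116.UV Pool.Agent.Z125.UN Pool.Agent.Q282.UK

variable {R : Type} [CommRing R] {sep : Prop} {P : Sch R → Prop}

lemma bform_eq {a b c : ℕ} (T : Fin a → Fin b → Fin c → R) (l : Fin c) :
    bform T l = bl (fun l i j => T i j l) l := by
  rw [bform, bl, bil_apply]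

/-- The system of bilinear equations `∑ T i j l x_i y_j = 0`, and the hypersurface
`∑ T i j l x_i y_j z_l = 1`. -/
theorem bil_iff (hP : Bnd sep P) {a b c : ℕ} (T : Fin a → Fin b → Fin c → R) :
    P (bilS T) ↔ P (hypS T) := by
  let T' : Fin c → Fin a → Fin b → R := fun l i j => T i j l
  have h1 : P (aff R (Hyp T')) ↔ P (aff R (Pc (bl T') 1)) := hyp_iff hP T'
  have h2 : (MvPolynomial (Fin a ⊕ Fin b) R ⧸ Ideal.span (Set.range (bform T))) =
      (MvPolynomial (Fin a ⊕ Fin b) R ⧸ Ideal.span (Set.range (bl T'))) := by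
    have h : bform T = bl T' := funext fun l => bform_eq T l
    rw [h]
  have h3 : P (bilS T) ↔ P (aff R (Pc (bl T') 1)) := by
    have h : bform T = bl T' := funext fun l => bform_eq T l
    unfold bilS
    rw [h]
    exact ⟨iso_alg hP.toUni (oneE (bl T')), iso_alg hP.toUni (oneE (bl T')).symm⟩
  rw [h3, ← h1]
  -- permutation of the blocks
  have e1 : Hyp T' ≃ₐ[R] Hyp fun i l j => T' l i j := swapL T'
  have e2 : (Hyp fun i l j => T' l i j) ≃ₐ[R] Hyp T := swapR fun i l j => T' l i j
  exact ⟨iso_alg hP.toUni (e1.trans e2), iso_alg hP.toUni (e1.trans e2).symm⟩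

/-- Schemes of dimension at most `d`, and systems of at most `d + 2` bilinear equations. -/
theorem dim_bil {k : Type} [Field k] [PerfectField k] {P : Sch k → Prop} (hP : Bnd True P) (d : ℕ) :
    (∀ X : Sch k, FT True X → topologicalKrullDim X.left ≤ d → P X) ↔
      ∀ (a b c : ℕ) (T : Fin a → Fin b → Fin c → k), c ≤ d + 2 → P (bilS T) := by
  rw [Pool.Agent.Q193.LT.dim_iff hP d]
  constructor
  · intro h a b c T hc
    exact (bil_iff hP T).mpr (h a b c T (Or.inr (Or.inr hc)))
  · intro h a b c T hm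
    exact of_block hP (fun a b c' hc' T => (bil_iff hP T).mp (h a b c' T hc')) T hm

end Pool.Agent.N882.UE
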