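import Pool.Agent.H95.M.Q193_LT_Pair
import Pool.Agent.H95.M.Q193_LT_Serre

/-!
# Families of modules with long exact sequences, and Serre classes

For a family of modules `A j X` with long exact sequences for closed-open decompositions, the schemes
`X` such that all modules `A j X` are in a Serre class have the closure properties `Bnd`.
-/

set_option autoImplicit false

open CategoryTheory CategoryTheory.Limits AlgebraicGeometry Pool.Agent.Y116.UV Pool.Agent.Z125.UN

universe w w'

namespace Pool.Agent.Q193.LT

variable {R : Type} [CommRing R] {ι : Type} {E : Type w'} [CommRing E]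

/-- Families of modules `A j X` over the ring `E` with the standard properties: isomorphisms, long exact
sequences `⋯ → A_j X → A_j Y → A_j Z → A_{δ j} X → ⋯` for a closed subscheme `Z` of `X` and its complement
`U` (covariant or contravariant), affine bundles with fibre `𝔸^{m-1}` (`τ` is the Tate twist),
products with `𝔾_m`. -/
structure IsMod (sep : Prop) (A : ι → Sch R → ModuleCat.{w} E) (δ τ σ : ι ≃ ι) : Prop where
  iso : ∀ {X Y : Sch R}, FT sep X → Nonempty (X ≅ Y) → ∀ j, Nonempty (A j X ≅ A j Y)
  les : ∀ {Z X U : Sch R} (i : Z ⟶ X) (j : U ⟶ X), FT sep X → IsTriple i j →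
    (∃ m : LesMaps A δ U X Z, m.IsExact) ∨ ∃ m : LesMaps A δ Z X U, m.IsExact
  bundle : ∀ (B : Type) [CommRing B] [Algebra R B] [Algebra.FiniteType R B] (m : ℕ)
    (f : Fin m → B) (U : Sch R) (j : U ⟶ aff R B), IsOpenImmersion j.left →
    Set.range j.left = {x : PrimeSpectrum B | ∃ l, f l ∉ x.asIdeal} →
    ∀ q, Nonempty (A q (aff R (Jou f)) ≅ A (((τ : Equiv.Perm ι) ^ (1 - m : ℤ)) q) U)
  torus : ∀ (B : Type) [CommRing B] [Algebra R B] [Algebra.FiniteType R B] (q : ι),
    ∃ (s : A q (aff R B) ⟶ A (σ q) (aff R (LaurentPolynomial B)))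
      (r : A (σ q) (aff R (LaurentPolynomial B)) ⟶ A q (aff R B)), s ≫ r = 𝟙 _

/-- All the modules are in the class `S`. -/
def InClass (A : ι → Sch R → ModuleCat.{w} E) (S : ModuleCat.{w} E → Prop) (X : Sch R) : Prop :=
  ∀ j, S (A j X)

variable {A : ι → Sch R → ModuleCat.{w} E} {δ τ σ : ι ≃ ι} {S : ModuleCat.{w} E → Prop}

lemma serre_exact (hS : IsSerre S) {P Q T : ModuleCat.{w} E} {f : P ⟶ Q} {g : Q ⟶ T}
    (h : ExactAt f g) (hP : S P) (hT : S T) : S Q := by
  have hw : f ≫ g = 0 := by
    ext x
    exact (h (f.hom x)).mpr ⟨x, rfl⟩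
  exact hS.mid f g hw ((ShortComplex.ShortExact.moduleCat_exact_iff_function_exact _).mpr h) hP hT

lemma LesMaps.mid (hS : IsSerre S) {X Y Z : Sch R} {m : LesMaps A δ X Y Z} (h : m.IsExact)
    (hX : InClass A S X) (hZ : InClass A S Z) : InClass A S Y := fun j =>
  serre_exact hS (h.fg j) (hX j) (hZ j)

lemma LesMaps.right (hS : IsSerre S) {X Y Z : Sch R} {m : LesMaps A δ X Y Z} (h : m.IsExact)
    (hX : InClass A S X) (hY : InClass A S Y) : InClass A S Z := fun j =>
  serre_exact hS (h.gh j) (hY j) (hX _)

lemma LesMaps.left (hS : IsSerre S) {X Y Z : Sch R} {m : LesMaps A δ X Y Z} (h : m.IsExact)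
    (hY : InClass A S Y) (hZ : InClass A S Z) : InClass A S X := fun j => by
  obtain ⟨j, rfl⟩ := δ.surjective j
  exact serre_exact hS (h.hf j) (hZ j) (hY _)

/-- Closure properties of the schemes for which all modules are in the class `S`. -/
theorem bnd_mod {sep : Prop} (hA : IsMod sep A δ τ σ) (hS : IsSerre S)
    (h1 : InClass A S (aff R R)) : Bnd sep (InClass A S) := by
  have hbun : ∀ (B : Type) [CommRing B] [Algebra R B] [Algebra.FiniteType R B] (m : ℕ)
      (f : Fin m → B) (U : Sch R) (j : U ⟶ aff R B), IsOpenImmersion j.left →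
      Set.range j.left = {x : PrimeSpectrum B | ∃ l, f l ∉ x.asIdeal} →
      (InClass A S U ↔ InClass A S (aff R (Jou f))) := by
    intro B _ _ _ m f U j hj hr
    constructor
    · intro h q
      obtain ⟨e⟩ := hA.bundle B m f U j hj hr q
      exact hS.iso e.symm (h _)
    · intro h q
      obtain ⟨q, rfl⟩ := ((τ : Equiv.Perm ι) ^ (1 - m : ℤ)).surjective q
      obtain ⟨e⟩ := hA.bundle B m f U j hj hr q
      exact hS.iso e (h q)
  exact
  { iso := fun hX e h j => by
      obtain ⟨e'⟩ := hA.iso hX e j
      exact hS.iso e' (h j)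
    total := fun i j hX ht hZ hU => by
      rcases hA.les i j hX ht with ⟨m, h⟩ | ⟨m, h⟩
      · exact LesMaps.mid hS h hU hZ
      · exact LesMaps.mid hS h hZ hU
    opened := fun i j hX ht hZ hX' => by
      rcases hA.les i j hX ht with ⟨m, h⟩ | ⟨m, h⟩
      · exact LesMaps.left hS h hX' hZ
      · exact LesMaps.right hS h hZ hX'
    closed := fun i j hX ht hX' hU => by
      rcases hA.les i j hX ht with ⟨m, h⟩ | ⟨m, h⟩
      · exact LesMaps.right hS h hU hX'
      · exact LesMaps.left hS h hX' hU
    space := fun n => by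
      have h2 := (hbun R (n + 1) (f1 R n) (aff R R) (𝟙 _) inferInstance (range_id n)).mp h1
      intro q
      obtain ⟨e⟩ := hA.iso (ft_aff sep) ⟨(affIso (jouOne R n)).symm⟩ q
      exact hS.iso e (h2 q)
    jouanolou := fun B _ _ _ m f U j hj hr h => (hbun B m f U j hj hr).mpr h
    torus := fun B _ _ _ h q => by
      obtain ⟨s, r, hsr⟩ := hA.torus B q
      have hm : Mono s := mono_of_mono_fac hsr
      exact hS.of_mono s (h (σ q))
    bundle := fun B _ _ _ m f U j hj hr h => (hbun B m f U j hj hr).mp h }

/-- Finitely generated modules over a noetherian ring are a Serre class. -/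
lemma serre_finite [IsNoetherianRing E] :
    IsSerre fun M : ModuleCat.{w} E => Module.Finite E M where
  zero X h := by
    have := ModuleCat.subsingleton_of_isZero h
    infer_instance
  mid {X Y Z} f g w h hX hZ := by
    have h1 : Function.Exact f.hom g.hom :=
      (ShortComplex.ShortExact.moduleCat_exact_iff_function_exact _).mp h
    have hX' : IsNoetherian E X := isNoetherian_of_isNoetherianRing_of_finite E X
    have hZ' : IsNoetherian E Z := isNoetherian_of_isNoetherianRing_of_finite E Z
    have h2 : LinearMap.range f.hom = LinearMap.ker g.hom := by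
      ext x
      exact (h1 x).symm
    have h3 : IsNoetherian E Y :=
      isNoetherian_of_range_eq_ker f.hom g.hom h2
    exact inferInstance

end Pool.Agent.Q193.LT
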