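import Pool.Agent.H95.M.Q282_UM_Rat
import Pool.Agent.H89.L.Y116_UV_Main
import Pool.Agent.H89.L.Y116_UV_Graph

/-!
# Systems of bilinear equations decide every property closed under closed-open decompositions
-/

set_option autoImplicit false

open CategoryTheory AlgebraicGeometry MvPolynomial Pool.Agent.Y116.UV

namespace Pool.Agent.Q282.UK

/-- The bilinear form `∑ T i j l x_i y_j`. -/
noncomputable def bform {R : Type} [CommRing R] {a b c : ℕ} (T : Fin a → Fin b → Fin c → R)
    (l : Fin c) : MvPolynomial (Fin a ⊕ Fin b) R :=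
  ∑ i, ∑ j, C (T i j l) * X (Sum.inl i) * X (Sum.inr j)

/-- The closed subscheme of the affine space given by the system of bilinear equations
`∑ T i j l x_i y_j = 0` for all `l`. -/
noncomputable def bilS {R : Type} [CommRing R] {a b c : ℕ} (T : Fin a → Fin b → Fin c → R) : Sch R :=
  aff R (MvPolynomial (Fin a ⊕ Fin b) R ⧸ Ideal.span (Set.range (bform T)))

/-- The property `P` of schemes of finite type is closed under closed-open decompositions, and it
descends from `X × 𝔾_m` to `X` for affine schemes `X`. -/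
structure Clo {R : Type} [CommRing R] (sep : Prop) (P : Sch R → Prop) : Prop where
  iso : ∀ {X Y : Sch R}, FT sep X → Nonempty (X ≅ Y) → P X → P Y
  total : ∀ {Z X U : Sch R} (i : Z ⟶ X) (j : U ⟶ X), FT sep X → IsTriple i j → P Z → P U → P X
  opened : ∀ {Z X U : Sch R} (i : Z ⟶ X) (j : U ⟶ X), FT sep X → IsTriple i j → P Z → P X → P U
  torus : ∀ (A : Type) [CommRing A] [Algebra R A] [Algebra.FiniteType R A],
    P (aff R (LaurentPolynomial A)) → P (aff R A)

section

variable {R : Type} [CommRing R] {sep : Prop} {P : Sch R → Prop}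

/-- Renaming the variables. -/
noncomputable def bilRename {β γ κ : Type} [Fintype β] [Fintype γ] {a b c : ℕ} (e₁ : Fin a ≃ β)
    (e₂ : Fin b ≃ γ) (e₃ : Fin c ≃ κ) (T : κ → β → γ → R) :
    (MvPolynomial (Fin a ⊕ Fin b) R ⧸
      Ideal.span (Set.range (bform fun i j l => T (e₃ l) (e₁ i) (e₂ j)))) ≃ₐ[R]
    (MvPolynomial (β ⊕ γ) R ⧸ Ideal.span (Set.range fun k => bil β γ (T k))) :=
  Ideal.quotientEquivAlg _ _ (renameEquiv R (Equiv.sumCongr e₁ e₂)) (by
    rw [Ideal.map_span, ← Set.range_comp]
    have h : (fun k => bil β γ (T k)) ∘ e₃ = ((renameEquiv R (Equiv.sumCongr e₁ e₂) :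
        MvPolynomial (Fin a ⊕ Fin b) R →+* MvPolynomial (β ⊕ γ) R)) ∘
          (bform fun i j l => T (e₃ l) (e₁ i) (e₂ j)) := by
      funext l
      simp only [Function.comp_apply, RingHom.coe_coe, bform, bil_apply, map_sum, map_mul,
        renameEquiv_apply, rename_C, rename_X, Equiv.sumCongr_apply, Sum.map_inl, Sum.map_inr]
      rw [← e₁.sum_comp]
      apply Finset.sum_congr rfl
      intro i _
      rw [← e₂.sum_comp]
    have h2 : Set.range (fun k => bil β γ (T k)) = Set.range ((fun k => bil β γ (T k)) ∘ e₃) :=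
      (e₃.surjective.range_comp _).symm
    rw [h2, h])

lemma clo_alg (hP : Clo sep P) {A B : Type} [CommRing A] [CommRing B] [Algebra R A] [Algebra R B]
    [Algebra.FiniteType R A] (e : A ≃ₐ[R] B) (h : P (aff R A)) : P (aff R B) :=
  hP.iso (ft_aff sep) ⟨(affIso e).symm⟩ h

variable {S : Set R} (hP : Clo sep P) (h0 : 0 ∈ S) (h1 : 1 ∈ S)
  (hH : ∀ (a b c : ℕ) (T : Fin a → Fin b → Fin c → R), (∀ i j k, T i j k ∈ S) → P (bilS T))

include hP hH

lemma clo_bil {β γ κ : Type} [Fintype β] [Fintype γ] [Fintype κ] (f : κ → MvPolynomial (β ⊕ γ) R)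
    (hf : ∀ k, f k ∈ bilIn S β γ) :
    P (aff R (MvPolynomial (β ⊕ γ) R ⧸ Ideal.span (Set.range f))) := by
  choose T hTS hT using hf
  have h2 : f = fun k => bil β γ (T k) := by
    funext k
    exact (hT k).symm
  rw [h2]
  exact clo_alg hP (bilRename (Fintype.equivFin β).symm (Fintype.equivFin γ).symm
    (Fintype.equivFin κ).symm T) (hH _ _ _ _ fun _ _ _ => hTS _ _ _)

include h0 h1

lemma clo_cone {A : Type} [CommRing A] [Algebra R A] [Algebra.FiniteType R A] {n D : ℕ} (hD : 1 ≤ D)
    (G : Finset (MvPolynomial (Fin n) R)) (φ : MvPolynomial (Fin n) R →ₐ[R] A)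
    (hd : ∀ g ∈ G, ∀ m ∈ g.support, m.degree ≤ D) (hs : Function.Surjective φ)
    (hK : RingHom.ker φ = Ideal.span (G : Set (MvPolynomial (Fin n) R)))
    (hc : ∀ g ∈ G, ∀ m, coeff m g ∈ S) : P (aff R A) := by
  classical
  have hG : ∀ g ∈ G, φ g = 0 := by
    intro g hg
    have : g ∈ RingHom.ker φ := by
      rw [hK]
      exact Ideal.subset_span hg
    exact this
  have hA : P (aff R (Cone hD G)) := clo_bil hP hH (eqs hD G) (eqs_mem hD G h0 h1 hc)
  let f' : Option (Mon n D ⊕ (Mon n D × Fin n) ⊕ G) → UVRing R n D := fun k =>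
    k.elim (uu R (mo n D) * vv R (mo n D)) (eqs hD G)
  have h2 : P (aff R (UVRing R n D ⧸ Ideal.span (Set.range f'))) := by
    apply clo_bil hP hH f'
    rintro (_ | k)
    · exact single_mem h0 h1 _ _
    · exact eqs_mem hD G h0 h1 hc k
  have h3 : Ideal.span (Set.range f') =
      eqI hD G ⊔ Ideal.span {uu R (mo n D) * vv R (mo n D)} := by
    rw [eqI, ← Ideal.span_union]
    congr 1
    ext x
    constructor
    · rintro ⟨_ | k, rfl⟩
      · exact Or.inr rfl
      · exact Or.inl ⟨k, rfl⟩
    · rintro (⟨k, rfl⟩ | rfl)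
      · exact ⟨some k, rfl⟩
      · exact ⟨none, rfl⟩
  rw [h3] at h2
  have h4 : P (aff R (Cone hD G ⧸ Ideal.span {cw hD G})) := by
    have e := (DoubleQuot.quotQuotEquivQuotSupₐ R (eqI hD G)
      (Ideal.span {uu R (mo n D) * vv R (mo n D)})).symm
    have h5 := clo_alg (B := Cone hD G ⧸ Ideal.map (Ideal.Quotient.mkₐ R (eqI hD G))
      (Ideal.span {uu R (mo n D) * vv R (mo n D)})) hP e h2
    have h6 : Ideal.map (Ideal.Quotient.mkₐ R (eqI hD G))
        (Ideal.span {uu R (mo n D) * vv R (mo n D)}) = Ideal.span {cw hD G} := by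
      rw [Ideal.map_span, Set.image_singleton]
      rfl
    rw [← h6]
    exact h5
  have h5 : P (aff R (LCone hD G)) := hP.opened _ _ (ft_aff sep) (triple_away (cw hD G)) h4 hA
  have h6 : Algebra.FiniteType R (LCone hD G) :=
    Algebra.FiniteType.trans (S := Cone hD G) inferInstance inferInstance
  have h7 := ft_laurent (R := R) A
  exact hP.torus A (hP.torus _ (clo_alg hP (coneEquiv hD G φ hG hd hs hK) h5))

/-- The affine case. -/
theorem clo_affine (hS : Presents S) (A : Type) [CommRing A] [Algebra R A]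
    [Algebra.FiniteType R A] : P (aff R A) := by
  classical
  obtain ⟨n, φ, G, hs, hK, hc⟩ := hS A
  let D : ℕ := 1 + ∑ g ∈ G, ∑ m ∈ g.support, m.degree
  refine clo_cone hP h0 h1 hH (D := D) (by omega) G φ ?_ hs hK hc
  intro g hg m hm
  have h1 : m.degree ≤ ∑ m ∈ g.support, m.degree :=
    Finset.single_le_sum (f := fun m : Fin n →₀ ℕ => m.degree) (fun _ _ => Nat.zero_le _) hm
  have h2 : ∑ m ∈ g.support, m.degree ≤ ∑ g ∈ G, ∑ m ∈ g.support, m.degree :=
    Finset.single_le_sum (f := fun g : MvPolynomial (Fin n) R => ∑ m ∈ g.support, m.degree)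
      (fun _ _ => Nat.zero_le _) hg
  omega

/-- A property which is closed under closed-open decompositions and under passing from `X × 𝔾_m` to
`X`, and which is true for the systems of bilinear equations with coefficients in `S`, is true for
every (separated) scheme of finite type. -/
theorem clo_universal (hS : Presents S) (X : Sch R) (hX : FT sep X) : P X :=
  of_affine' hP.iso hP.total (fun A _ _ _ => clo_affine hP h0 h1 hH hS A) X hX

end

end Pool.Agent.Q282.UK
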