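import Pool.Agent.H95.M.Q68_OV_Finite

/-!
# Finitely many tripartite hypergraphs for each scheme over a prime field
-/

set_option autoImplicit false

open CategoryTheory CategoryTheory.Limits AlgebraicGeometry Pool.Agent.Y116.UV Pool.Agent.Z125.UN
  Pool.Agent.Q193.LT Pool.Agent.Q49.WU

universe w

namespace Pool.Agent.Q68.OV

/-- A finite set `H` of triples `(i, j, l)`: a tripartite hypergraph. -/
structure Graph where
  /-- the number of the variables `x_i` -/
  a : ℕ
  /-- the number of the variables `y_j` -/
  b : ℕ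
  /-- the number of the variables `z_l` -/
  c : ℕ
  /-- the set of the triples -/
  H : Finset (Fin a × Fin b × Fin c)

variable {F : Type} [Field F]

/-- The hypersurface `∑_{(i, j, l) ∈ H} x_i y_j z_l = 1` over `F`. -/
noncomputable def Graph.hyp (F : Type) [Field F] (g : Graph) : Sch F := tripS F g.H

/-- Every property `Q` with the closure properties `Bnd`, which is true for the hypersurfaces of some
finite list of hypergraphs, is true for `X`. -/
def ReachedG (X : Sch F) : Prop :=
  ∃ L : List Graph, ∀ Q : Sch F → Prop, Bnd True Q → (∀ g ∈ L, Q (g.hyp F)) → Q X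

theorem bnd_reachedG : Bnd True (ReachedG : Sch F → Prop) := by
  have two : ∀ {X Y Z : Sch F}, (∀ Q : Sch F → Prop, Bnd True Q → Q X → Q Y → Q Z) →
      ReachedG X → ReachedG Y → ReachedG Z := by
    rintro X Y Z h ⟨L, h1⟩ ⟨L', h2⟩
    refine ⟨L ++ L', fun Q hQ h3 => ?_⟩
    exact h Q hQ (h1 Q hQ fun t ht => h3 t (List.mem_append_left _ ht))
      (h2 Q hQ fun t ht => h3 t (List.mem_append_right _ ht))
  have one : ∀ {X Y : Sch F}, (∀ Q : Sch F → Prop, Bnd True Q → Q X → Q Y) →
      ReachedG X → ReachedG Y := by
    rintro X Y h ⟨L, h1⟩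
    exact ⟨L, fun Q hQ h3 => h Q hQ (h1 Q hQ h3)⟩
  exact
  { iso := fun hX e => one fun Q hQ => hQ.iso hX e
    total := fun i j hX ht => two fun Q hQ => hQ.total i j hX ht
    opened := fun i j hX ht => two fun Q hQ => hQ.opened i j hX ht
    closed := fun i j hX ht => two fun Q hQ => hQ.closed i j hX ht
    space := fun n => ⟨[], fun Q hQ _ => hQ.space n⟩
    jouanolou := fun B _ _ _ l f U j hj hr h =>
      one (X := aff F (Jou f)) (Y := U) (fun Q hQ h1 => hQ.jouanolou B l f U j hj hr h1) h
    torus := fun B _ _ _ h => one (X := aff F (LaurentPolynomial B)) (Y := aff F B)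
      (fun Q hQ h1 => hQ.torus B h1) h
    bundle := fun B _ _ _ l f U j hj hr h =>
      one (X := U) (Y := aff F (Jou f)) (fun Q hQ h1 => hQ.bundle B l f U j hj hr h1) h }

/-- **Finitely many hypergraphs.** Over a field in which all elements are quotients of integers, every
scheme of finite type is reached from finitely many hypergraphs. -/
theorem reachedG (hF : Frac F) (X : Sch F) (hX : FT True X) : ReachedG X := by
  refine universal_frac hF (bnd_reachedG (F := F)).toUni (fun a b c H => ?_) X hX
  exact ⟨[⟨a, b, c, H⟩], fun Q _ h1 => h1 ⟨a, b, c, H⟩ (List.mem_singleton.mpr rfl)⟩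

end Pool.Agent.Q68.OV
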