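import Pool.Agent.H95.M.Q68_OV_Main
import Pool.Agent.H95.M.Q49_WU_Pair

/-!
# One class on `X × P` and the cubic hypersurfaces `T(x, y, z) = 1`

Let `X` and `P` be smooth projective varieties over an algebraic extension `k` of a perfect field `F`
(`P = K × K` for the Kuga-Satake variety `K` of `X`), and `κ` one class on `P × X`. The class `κ` is
algebraic if and only if the composition `α ↦ κ ∘ α` maps the algebraic classes `α` on `X × Y_k` to
algebraic classes on `P × Y_k`.
-/

set_option autoImplicit false

open CategoryTheory CategoryTheory.Limits AlgebraicGeometry Pool.Agent.Y116.UV Pool.Agent.Z125.UN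
  Pool.Agent.Q193.LT Pool.Agent.Q49.WU

universe w

namespace Pool.Agent.Q68.OV

/-- Correspondences between two smooth projective varieties `X` and `P` over `k`, and the schemes `Y_k`,
for schemes `Y` over `F`. -/
structure TwoData (F : Type) [Field F] where
  /-- the cohomology of `X × Y_k` -/
  EX : Sch F → ModuleCat.{w} ℚ
  /-- the cohomology of `P × Y_k` -/
  EP : Sch F → ModuleCat.{w} ℚ
  /-- the algebraic classes of codimension `n` on `X × Y_k` (rational coefficients) -/
  algX : ∀ (_ : ℤ) (Y : Sch F), Submodule ℚ (EX Y)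
  /-- the algebraic classes of codimension `n` on `P × Y_k` (rational coefficients) -/
  algP : ∀ (_ : ℤ) (Y : Sch F), Submodule ℚ (EP Y)
  /-- a scheme `S` over `F` such that `X` is a union of connected components of `S_k` -/
  S : Sch F
  /-- the dimension of `X` -/
  dimX : ℤ
  /-- the class of the graph of the inclusion of `X` in `S_k` -/
  diag : EX S
  /-- the composition `β ∘ α` of a class `α` on `X × Y_k` with the part on `P × X` of a class `β` on
  `P × S_k` -/
  comp : ∀ Y, EX Y →ₗ[ℚ] EP S →ₗ[ℚ] EP Y

variable {F : Type} [Field F]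

/-- The standard properties: the class of a graph is algebraic, and compositions of algebraic
correspondences are algebraic. -/
structure IsTwo (D : TwoData.{w} F) : Prop where
  proj : SmoothProj D.S
  diag_mem : D.diag ∈ D.algX D.dimX D.S
  comp_mem : ∀ Y, SmoothProj Y → ∀ n m : ℤ, ∀ α ∈ D.algX n Y, ∀ β ∈ D.algP m D.S,
    D.comp Y α β ∈ D.algP (n + m - D.dimX) Y

/-- The class `β` on `P × S_k` is a class on `P × X`. -/
def OnProduct (D : TwoData.{w} F) (β : D.EP D.S) : Prop := D.comp D.S D.diag β = β

/-- The composition with the class `κ`, of codimension `m`, maps the algebraic classes on `X × Y_k` to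
algebraic classes on `P × Y_k`, for the classes whose image has the codimension `n`. -/
def StableAt (D : TwoData.{w} F) (m : ℤ) (κ : D.EP D.S) (n : ℤ) (Y : Sch F) : Prop :=
  ∀ α ∈ D.algX (n - m + D.dimX) Y, D.comp Y α κ ∈ D.algP n Y

variable {D : TwoData.{w} F} (hD : IsTwo D) {m : ℤ} {κ : D.EP D.S} (hκ : OnProduct D κ)

include hD in
theorem stable_of_mem (h : κ ∈ D.algP m D.S) (n : ℤ) (Y : Sch F) (hY : SmoothProj Y) :
    StableAt D m κ n Y := by
  intro α hα
  have h1 := hD.comp_mem Y hY _ _ α hα κ h
  rwa [show n - m + D.dimX + m - D.dimX = n by ring] at h1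

include hD hκ in
theorem mem_of_stable (h : StableAt D m κ m D.S) : κ ∈ D.algP m D.S := by
  rw [← hκ]
  refine h D.diag ?_
  rw [sub_self, zero_add]
  exact hD.diag_mem

variable [PerfectField F] {C : PairData.{w} F (ℤ × ℤ) ℚ} (hC : IsWeightPair C)
  (bij : ∀ Y, SmoothProj Y → ∀ n, (BijAt C Prod.fst n Y ↔ StableAt D m κ n Y))

omit [PerfectField F] in
theorem bijAll_iff (X : Sch F) : BijAll C X ↔ ∀ n, BijAt C Prod.fst n X :=
  ⟨fun h _ j _ => h j, fun h j => h j.1 j rfl⟩

include hD hκ hC bij

/-- all codimensions, dimension by dimension -/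
theorem two_dim (hg : WeightGen C) {n : ℕ} (hn : topologicalKrullDim D.S.left ≤ n) :
    κ ∈ D.algP m D.S ↔ BijAll C (aff F F) ∧ Forms C (n + 2) := by
  rw [← forms_iff hC hg n]
  constructor
  · intro h Y hY _
    exact (bijAll_iff Y).mpr fun i => (bij Y hY i).mpr (stable_of_mem hD h i Y hY)
  · intro h
    exact mem_of_stable hD hκ ((bij D.S hD.proj m).mp ((bijAll_iff _).mp (h D.S hD.proj hn) m))

omit [PerfectField F] hC in
/-- one codimension -/
theorem two_at : κ ∈ D.algP m D.S ↔ ∀ Y : Sch F, SmoothProj Y → BijAt C Prod.fst m Y := by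
  constructor
  · intro h Y hY
    exact (bij Y hY m).mpr (stable_of_mem hD h m Y hY)
  · intro h
    exact mem_of_stable hD hκ ((bij D.S hD.proj m).mp (h D.S hD.proj))

end Pool.Agent.Q68.OV
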