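import Pool.Agent.H95.M.Q193_LT_Cyc

/-!
# Operators on the cohomology of one variety and the cubic hypersurfaces `T(x, y, z) = 1`

Let `Z` be one smooth projective variety over an algebraic extension `k` of a perfect field `F`, and let
`λ_j` be classes on `Z × Z`, for instance the Künneth projectors or the class of the operator `Λ`. They
operate on the cohomology of `Z × Y_k`, for schemes `Y` over `F`, by composition of correspondences
`α ↦ α ∘ λ_j`. The classes `λ_j` are algebraic if and only if this operation maps algebraic classes to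
algebraic classes.
-/

set_option autoImplicit false

open CategoryTheory CategoryTheory.Limits AlgebraicGeometry Pool.Agent.Y116.UV Pool.Agent.Z125.UN
  Pool.Agent.Q193.LT

universe w

namespace Pool.Agent.Q68.OV

/-- Correspondences from a smooth projective variety `Z` over `k` to the schemes `Y_k`, for schemes `Y`
over `F`. -/
structure CorrData (F : Type) [Field F] where
  /-- the cohomology of `Z × Y_k`, for smooth projective `Y` -/
  E : Sch F → ModuleCat.{w} ℚ
  /-- the algebraic classes: the rational linear combinations of classes of cycles -/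
  alg : ∀ Y, Submodule ℚ (E Y)
  /-- a scheme `S` over `F` such that `Z` is a union of connected components of `S_k` -/
  S : Sch F
  /-- the class of the graph of the inclusion of `Z` in `S_k` -/
  diag : E S
  /-- the composition `α ∘ β` of a class `α` on `Z × Y_k` with the part on `Z × Z` of a class `β` on
  `Z × S_k` -/
  comp : ∀ Y, E Y →ₗ[ℚ] E S →ₗ[ℚ] E Y

variable {F : Type} [Field F]

/-- The standard properties: the class of a graph is algebraic, and compositions of algebraic
correspondences are algebraic. -/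
structure IsCorr (D : CorrData.{w} F) : Prop where
  proj : SmoothProj D.S
  diag_mem : D.diag ∈ D.alg D.S
  comp_mem : ∀ Y, SmoothProj Y → ∀ α ∈ D.alg Y, ∀ β ∈ D.alg D.S, D.comp Y α β ∈ D.alg Y

/-- The class `β` on `Z × S_k` is a class on `Z × Z`. -/
def OnSquare (D : CorrData.{w} F) (β : D.E D.S) : Prop := D.comp D.S D.diag β = β

/-- The composition with the classes `lam j` maps the algebraic classes on `Z × Y_k` to algebraic
classes. -/
def Stable (D : CorrData.{w} F) {J : Type} (lam : J → D.E D.S) (Y : Sch F) : Prop :=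
  ∀ (j : J), ∀ α ∈ D.alg Y, D.comp Y α (lam j) ∈ D.alg Y

/-- All classes `lam j` are algebraic. -/
def Algebraic (D : CorrData.{w} F) {J : Type} (lam : J → D.E D.S) : Prop :=
  ∀ j : J, lam j ∈ D.alg D.S

/-- The maps are isomorphisms for all hypersurfaces `T = 1` with a block of at most `m` variables. -/
def Forms (C : PairData.{w} F (ℤ × ℤ) ℚ) (m : ℕ) : Prop :=
  ∀ (a b c : ℕ) (T : Fin a → Fin b → Fin c → F), (a ≤ m ∨ b ≤ m ∨ c ≤ m) → BijAll C (hypS T)

/-- The maps are isomorphisms for the point and for all hypersurfaces `T = 1`. -/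
def AllForms (C : PairData.{w} F (ℤ × ℤ) ℚ) : Prop :=
  BijAll C (aff F F) ∧ ∀ (a b c : ℕ) (T : Fin a → Fin b → Fin c → F), BijAll C (hypS T)

/-- The maps are isomorphisms for the point and for the hypersurfaces
`∑_{(i, j, l) ∈ H} x_i y_j z_l = 1` of all finite sets `H` of triples. -/
def AllGraphs (C : PairData.{w} F (ℤ × ℤ) ℚ) : Prop :=
  BijAll C (aff F F) ∧
    ∀ (a b c : ℕ) (H : Finset (Fin a × Fin b × Fin c)), BijAll C (tripS F H)

theorem crit {D : CorrData.{w} F} (hD : IsCorr D) {J : Type} {lam : J → D.E D.S}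
    (hlam : ∀ j, OnSquare D (lam j)) {P : Sch F → Prop} (hS : P D.S) :
    Algebraic D lam ↔ ∀ Y, SmoothProj Y → P Y → Stable D lam Y := by
  constructor
  · intro h Y hY _ j α hα
    exact hD.comp_mem Y hY α hα _ (h j)
  · intro h j
    rw [← hlam j]
    exact h D.S hD.proj hS j _ hD.diag_mem

section

variable [PerfectField F] {C : PairData.{w} F (ℤ × ℤ) ℚ} (hC : IsWeightPair C) (hg : WeightGen C)

include hg in
theorem point_of {n : ℕ}
    (h : ∀ Y : Sch F, SmoothProj Y → topologicalKrullDim Y.left ≤ n → BijAll C Y) :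
    BijAll C (aff F F) := by
  refine hg n h (aff F F) (ft_aff True) ?_
  rw [topDim_aff, ringKrullDim_eq_zero_of_field]
  exact_mod_cast Nat.zero_le n

include hC hg

theorem forms_iff (n : ℕ) :
    (∀ Y : Sch F, SmoothProj Y → topologicalKrullDim Y.left ≤ n → BijAll C Y) ↔
      BijAll C (aff F F) ∧ Forms C (n + 2) :=
  ⟨fun h => ⟨point_of hg h, (wg_dim hg hC (point_of hg h) n).mp h⟩,
    fun h => (wg_dim hg hC h.1 n).mpr h.2⟩

theorem all_iff' : (∀ Y : Sch F, SmoothProj Y → BijAll C Y) ↔ AllForms C := by
  constructor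
  · intro h
    have h1 : BijAll C (aff F F) := point_of (n := 0) hg fun Y hY _ => h Y hY
    exact ⟨h1, (wg_all hg hC h1).mp h⟩
  · intro h
    exact (wg_all hg hC h.1).mpr h.2

theorem graph_iff' (hF : Frac F) : (∀ Y : Sch F, SmoothProj Y → BijAll C Y) ↔ AllGraphs C := by
  constructor
  · intro h
    have h1 : BijAll C (aff F F) := point_of (n := 0) hg fun Y hY _ => h Y hY
    exact ⟨h1, (wg_graph hg hC h1 hF).mp h⟩
  · intro h
    exact (wg_graph hg hC h.1 hF).mpr h.2

variable {D : CorrData.{w} F} (hD : IsCorr D) {J : Type} {lam : J → D.E D.S}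
  (hlam : ∀ j, OnSquare D (lam j)) (bij : ∀ Y, SmoothProj Y → (BijAll C Y ↔ Stable D lam Y))

include hD hlam bij

/-- The classes `lam j` are algebraic iff the maps are isomorphisms for the cubics with a block of at
most `n + 2` variables, `n` the dimension of `Z`. -/
theorem one_dim {n : ℕ} (hn : topologicalKrullDim D.S.left ≤ n) :
    Algebraic D lam ↔ BijAll C (aff F F) ∧ Forms C (n + 2) := by
  rw [← forms_iff hC hg n,
    crit hD hlam (P := fun Y : Sch F => topologicalKrullDim Y.left ≤ n) hn]
  exact ⟨fun h Y hY hd => (bij Y hY).mpr (h Y hY hd), fun h Y hY hd => (bij Y hY).mp (h Y hY hd)⟩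

theorem one_all : Algebraic D lam ↔ AllForms C := by
  rw [← all_iff' hC hg, crit hD hlam (P := fun _ : Sch F => True) trivial]
  exact ⟨fun h Y hY => (bij Y hY).mpr (h Y hY trivial), fun h Y hY _ => (bij Y hY).mp (h Y hY)⟩

theorem one_graph (hF : Frac F) : Algebraic D lam ↔ AllGraphs C := by
  rw [← graph_iff' hC hg hF, crit hD hlam (P := fun _ : Sch F => True) trivial]
  exact ⟨fun h Y hY => (bij Y hY).mpr (h Y hY trivial), fun h Y hY _ => (bij Y hY).mp (h Y hY)⟩

end

end Pool.Agent.Q68.OV
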